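import Pool.Agent.Helper51.GT.Lib

set_option autoImplicit false

/-! Module MATA: the matrices `θ` and their adjugates. -/

namespace Pool.Agent.Helper51.GT

open Polynomial Lib

variable {K : Type} [Field K] {φ : K ≃+* K}

theorem mata_norm_inv {x : K} (hx : x * fr φ 2 x * fr φ 4 x * fr φ 6 x = 1) :
    x⁻¹ * fr φ 2 x⁻¹ * fr φ 4 x⁻¹ * fr φ 6 x⁻¹ = 1 := by
  simp only [map_inv₀]
  rw [← mul_inv, ← mul_inv, ← mul_inv, hx, inv_one]

theorem mata_norm_fr {x : K} (i : ℕ) (hx : x * fr φ 2 x * fr φ 4 x * fr φ 6 x = 1) :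
    fr φ i x * fr φ 2 (fr φ i x) * fr φ 4 (fr φ i x) * fr φ 6 (fr φ i x) = 1 := by
  have := congrArg (fr φ i) hx
  simp only [map_mul, map_one, fr_fr] at this
  simp only [fr_fr, add_comm 2 i, add_comm 4 i, add_comm 6 i]
  exact this

theorem mata_norm_mul {x y : K} (hx : x * fr φ 2 x * fr φ 4 x * fr φ 6 x = 1)
    (hy : y * fr φ 2 y * fr φ 4 y * fr φ 6 y = 1) :
    (x * y) * fr φ 2 (x * y) * fr φ 4 (x * y) * fr φ 6 (x * y) = 1 := by
  simp only [map_mul]
  calc _ = (x * fr φ 2 x * fr φ 4 x * fr φ 6 x) * (y * fr φ 2 y * fr φ 4 y * fr φ 6 y) := by ring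
    _ = 1 := by rw [hx, hy, one_mul]

theorem mata_norm_bt {x : K} (hx : x * fr φ 2 x * fr φ 4 x * fr φ 6 x = 1) :
    bt φ x * fr φ 2 (bt φ x) * fr φ 4 (bt φ x) * fr φ 6 (bt φ x) = 1 := by
  unfold bt
  exact mata_norm_mul (mata_norm_fr 5 hx) (mata_norm_inv (mata_norm_mul hx (mata_norm_fr 2 hx)))

theorem mata_pi_ne : (1 + X : K[X]) ≠ 0 := by
  intro h
  have := congrArg (fun p => coeff p 1) h
  simp [coeff_one] at this

theorem mata_det_P (h : Dat φ) : (1 + Zm : Mat K).det = 1 + X := by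
  have h2 := two_poly h
  rw [Matrix.det_succ_row_zero]
  simp [Fin.sum_univ_succ, Matrix.det_fin_three, Zm, Matrix.one_apply, Matrix.submatrix, Fin.succAbove,
    Matrix.add_apply]
  linear_combination (-X) * h2

theorem mata_det_Um (h : Dat φ) : (Um : Mat K).det = (1 + X) ^ 3 := by
  have h1 := congrArg Matrix.det (P_Um (φ := φ) h)
  rw [Matrix.det_mul, mata_det_P h, Matrix.det_smul, Matrix.det_one, Fintype.card_fin, mul_one] at h1
  refine mul_left_cancel₀ (mata_pi_ne (K := K)) ?_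
  rw [h1]; ring

theorem mata_cir_dg (a : K) : (dg φ a).map (Polynomial.map (fr φ 2)) = dg φ (fr φ 2 a) := by
  refine Matrix.ext fun i j => ?_
  rw [Matrix.map_apply, dg, dg, Matrix.diagonal_apply, Matrix.diagonal_apply]
  split_ifs
  · rw [Polynomial.map_C, fr_fr, fr_fr, add_comm]
  · simp

theorem mata_cir_mul {M N : Mat K} (hM : Cir φ M) (hN : Cir φ N) : Cir φ (M * N) := by
  have e : (M * N).map (Polynomial.map (fr φ 2)) =
      M.map (Polynomial.map (fr φ 2)) * N.map (Polynomial.map (fr φ 2)) :=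
    Matrix.map_mul (f := Polynomial.mapRingHom (fr φ 2))
  unfold Cir at *
  rw [e, mul_assoc, hN, ← mul_assoc, hM, mul_assoc]

theorem mata_cirdg (h : Dat φ) (a : K) : Cir φ (dg φ a) := by
  unfold Cir
  rw [mata_cir_dg, Zm_dg h]

theorem mata_cir_P : Cir φ (1 + Zm : Mat K) := by
  have e : (1 + Zm : Mat K).map (Polynomial.map (fr φ 2)) = 1 + Zm := by
    refine Matrix.ext fun i j => ?_
    fin_cases i <;> fin_cases j <;> simp [Zm, Matrix.add_apply, Matrix.one_apply]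
  unfold Cir
  rw [e]
  noncomm_ring

theorem mata_cir_U : Cir φ (Um : Mat K) := by
  have e : (Um : Mat K).map (Polynomial.map (fr φ 2)) = Um := by
    refine Matrix.ext fun i j => ?_
    fin_cases i <;> fin_cases j <;> simp [Um]
  unfold Cir
  rw [e, Zm_Um]

theorem st_MATA : ST_MATA := by
  intro K _ φ h x hx
  have hN := hx.1
  have x0 := XS_ne hx
  have b0 : bt φ x ≠ 0 := bt_ne x0
  refine ⟨?_, ?_, ?_, ?_, ?_, ?_⟩
  · unfold th ad
    calc dg φ (bt φ x)⁻¹ * (1 + Zm) * dg φ x⁻¹ * (dg φ x * Um * dg φ (bt φ x))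
        = dg φ (bt φ x)⁻¹ * ((1 + Zm) * ((dg φ x⁻¹ * dg φ x) * Um)) * dg φ (bt φ x) := by
          simp only [mul_assoc]
      _ = (1 + X : K[X]) • (1 : Mat K) := by
          rw [dg_inv' x0, one_mul, P_Um h, Matrix.mul_smul, mul_one, Matrix.smul_mul, dg_inv' b0]
  · unfold th ad
    calc dg φ x * Um * dg φ (bt φ x) * (dg φ (bt φ x)⁻¹ * (1 + Zm) * dg φ x⁻¹)
        = dg φ x * (Um * ((dg φ (bt φ x) * dg φ (bt φ x)⁻¹) * (1 + Zm))) * dg φ x⁻¹ := by
          simp only [mul_assoc]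
      _ = (1 + X : K[X]) • (1 : Mat K) := by
          rw [dg_inv b0, one_mul, Um_P h, Matrix.mul_smul, mul_one, Matrix.smul_mul, dg_inv x0]
  · unfold th
    rw [Matrix.det_mul, Matrix.det_mul, mata_det_P h, dg_det, dg_det, mata_norm_inv hN,
      mata_norm_inv (mata_norm_bt hN), map_one, one_mul, mul_one]
  · unfold ad
    rw [Matrix.det_mul, Matrix.det_mul, mata_det_Um h, dg_det, dg_det, hN,
      mata_norm_bt hN, map_one, one_mul, mul_one]
  · unfold th
    exact mata_cir_mul (mata_cir_mul (mata_cirdg h _) mata_cir_P) (mata_cirdg h _)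
  · unfold ad
    exact mata_cir_mul (mata_cir_mul (mata_cirdg h _) mata_cir_U) (mata_cirdg h _)

end Pool.Agent.Helper51.GT
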