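import Pool.Agent.Helper23.GT.MATA

set_option autoImplicit false

/-! Module PROD: words in `θ_a θ_b^adj`. -/

namespace Pool.Agent.Helper51.GT

open Polynomial Lib

variable {K : Type} [Field K] {φ : K ≃+* K}

theorem prod_cir_one : Cir φ (1 : Mat K) := by
  unfold Cir
  have e : (1 : Mat K).map (Polynomial.map (fr φ 2)) = 1 := by
    refine Matrix.ext fun i j => ?_
    fin_cases i <;> fin_cases j <;> simp
  rw [e, one_mul, mul_one]

theorem prod_flp_one : flp φ 0 (1 : Mat K) = 1 := by
  refine Matrix.ext fun i j => ?_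
  have e1 : reflect 0 (1 : K[X]) = 1 := by
    refine Polynomial.ext fun t => ?_
    rw [coeff_reflect]
    rcases Nat.eq_zero_or_pos t with ht | ht
    · subst ht; simp
    · rw [revAt_eq_self_of_lt ht]
  unfold flp
  rw [Matrix.of_apply]
  by_cases hij : i = j
  · subst hij
    simp [e1]
  · rw [Matrix.one_apply_ne hij, Matrix.one_apply_ne (Ne.symm hij)]
    simp

theorem st_PROD (hA : ST_MATA) (hB : ST_MATB) (hF : ST_FLIP) : ST_PROD := by
  intro K _ φ h a b ha hb j
  induction j with
  | zero =>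
    refine ⟨?_, ?_, ?_, ?_, ?_⟩
    · simp [wd, wr]
    · simp [wd]
    · intro r c s hs
      rw [wd, Matrix.one_apply]
      split_ifs
      · rw [coeff_one, if_neg (by omega)]
      · simp
    · rw [wd, wr, prod_flp_one, one_mul, mul_one]
    · rw [wd]; exact prod_cir_one
  | succ n ih =>
    obtain ⟨i1, i2, i3, i4, i5⟩ := ih
    obtain ⟨a1, a2, a3, a4, a5, a6⟩ := hA K φ h (a n) (ha n)
    obtain ⟨b1, b2, b3, b4, b5, b6⟩ := hA K φ h (b n) (hb n)
    obtain ⟨m1, m2, m3⟩ := hB K φ h (a n) (ha n) (b n) (hb n)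
    obtain ⟨f1, f2, f3, f4⟩ := hF K φ n 1 (wd φ a b n) (th φ (a n) * ad φ (b n)) i3 m2
    refine ⟨?_, ?_, ?_, ?_, ?_⟩
    · rw [wd, wr]
      calc wd φ a b n * (th φ (a n) * ad φ (b n)) * (th φ (b n) * ad φ (a n) * wr φ a b n)
          = wd φ a b n * (th φ (a n) * ((ad φ (b n) * th φ (b n)) * ad φ (a n))) * wr φ a b n := by
            simp only [mul_assoc]
        _ = ((1 + X : K[X]) * (1 + X)) • (wd φ a b n * wr φ a b n) := by
            rw [b2, Matrix.smul_mul, one_mul, Matrix.mul_smul, a1, smul_smul, Matrix.mul_smul,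
              mul_one, Matrix.smul_mul]
        _ = _ := by
            rw [i1, smul_smul]
            congr 1
            ring
    · rw [wd, Matrix.det_mul, Matrix.det_mul, i2, a3, b4]
      ring
    · intro r c s hs
      rw [wd]
      exact f2 r c s hs
    · rw [wd, wr, f1, mul_assoc (th φ (b n) * ad φ (a n)) _ Um, i4, ← mul_assoc, m1, mul_assoc]
    · rw [wd]
      exact mata_cir_mul i5 (mata_cir_mul a5 b6)

end Pool.Agent.Helper51.GT
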