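import Pool.Agent.Helper51.GT.Lib

set_option autoImplicit false

/-! Module REL: a short reduced word is not congruent to `(1+X)^j`. -/

namespace Pool.Agent.Helper51.GT

open Polynomial Lib

variable {K : Type} [Field K] {φ : K ≃+* K}

theorem rel_cir_sub {M N : Mat K} (hM : Cir φ M) (hN : Cir φ N) : Cir φ (M - N) := by
  unfold Cir at *
  have e : (M - N).map (Polynomial.map (fr φ 2)) =
      M.map (Polynomial.map (fr φ 2)) - N.map (Polynomial.map (fr φ 2)) := by
    refine Matrix.ext fun i j => ?_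
    simp [Matrix.sub_apply]
  rw [e, sub_mul, mul_sub, hM, hN]

theorem rel_cir_smul (j : ℕ) : Cir φ (((1 + X : K[X]) ^ j) • (1 : Mat K)) := by
  unfold Cir
  have e : (((1 + X : K[X]) ^ j) • (1 : Mat K)).map (Polynomial.map (fr φ 2)) =
      ((1 + X : K[X]) ^ j) • (1 : Mat K) := by
    refine Matrix.ext fun r c => ?_
    by_cases hrc : r = c
    · subst hrc
      simp
    · simp [Matrix.one_apply_ne hrc]
  rw [e, Matrix.smul_mul, one_mul, Matrix.mul_smul, mul_one]

theorem st_REL (hR : ST_RNK) (hD : ST_DETR) (hS : ST_SYM) (hV : ST_VAN) (hDv : ST_DIV)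
    (hO : ST_ORD) (hP : ST_PROD) : ST_REL := by
  intro K _ φ h a b ha hb d j hj hjd hred hfil
  obtain ⟨⟨u, v, S, hW⟩, r, c, hrc⟩ := hR K φ h a b ha hb j hj hred
  have e1 : wd φ a b j - ((1 + X : K[X]) ^ j) • (1 : Mat K) =
      Matrix.vecMulVec u v + ((1 + X : K[X]) ^ j) • (S - 1) := by
    rw [hW, smul_sub, add_sub_assoc]
  have hdiv : (1 + X : K[X]) ^ (3 * j) ∣
      (wd φ a b j - ((1 + X : K[X]) ^ j) • (1 : Mat K)).det := by
    rw [e1, mul_comm 3 j, pow_mul]
    exact hD K[X] u v (S - 1) ((1 + X) ^ j)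
  have hlow : ∀ t, t < d →
      (wd φ a b j - ((1 + X : K[X]) ^ j) • (1 : Mat K)).det.coeff t = 0 :=
    fun t ht => hO K d t _ hfil ht
  have hp := hV K (fr φ 5) _ j d h.two hjd hdiv hlow (hS K φ h a b ha hb j)
  have hcir : Cir φ (wd φ a b j - ((1 + X : K[X]) ^ j) • (1 : Mat K)) :=
    rel_cir_sub (hP K φ h a b ha hb j).2.2.2.2 (rel_cir_smul j)
  have hz : wd φ a b j - ((1 + X : K[X]) ^ j) • (1 : Mat K) = 0 := by
    by_contra hne
    exact hDv K φ _ hcir hne hp
  apply hrc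
  rw [sub_eq_zero.mp hz]
  have h11 : (1 : K) + 1 = 0 := by
    have := h.two
    rw [← this]; norm_num
  rw [Matrix.smul_apply, smul_eq_mul, eval_mul, eval_pow, eval_add, eval_one, eval_X, h11,
    zero_pow (by omega), zero_mul]

end Pool.Agent.Helper51.GT
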