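import Pool.Agent.Helper51.GT.Defs

set_option autoImplicit false

/-! Module VAN: a divisible polynomial with a symmetry and high order at `0` vanishes. -/

namespace Pool.Agent.Helper51.GT

open Polynomial

theorem van_reflect_pow {K : Type} [Field K] (n : ℕ) :
    reflect n ((1 + X : K[X]) ^ n) = (1 + X) ^ n := by
  induction n with
  | zero =>
    rw [pow_zero]
    refine Polynomial.ext fun t => ?_
    rw [coeff_reflect]
    by_cases ht : t = 0
    · subst ht; simp
    · rw [revAt_eq_self_of_lt (Nat.pos_of_ne_zero ht)]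
  | succ n ih =>
    have h1 : ((1 + X : K[X]) ^ n).natDegree ≤ n := by
      refine (natDegree_pow_le).trans ?_
      have : (1 + X : K[X]).natDegree ≤ 1 := by
        refine (natDegree_add_le _ _).trans ?_
        simp
      calc n * (1 + X : K[X]).natDegree ≤ n * 1 := Nat.mul_le_mul_left _ this
        _ = n := mul_one n
    have h2 : (1 + X : K[X]).natDegree ≤ 1 := by
      refine (natDegree_add_le _ _).trans ?_
      simp
    have h3 : reflect 1 (1 + X : K[X]) = 1 + X := by
      refine Polynomial.ext fun t => ?_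
      rw [coeff_reflect]
      rcases Nat.lt_or_ge 1 t with ht | ht
      · rw [revAt_eq_self_of_lt ht]
      · rw [revAt_le ht]
        interval_cases t <;> simp [coeff_one, coeff_X]
    rw [pow_succ, reflect_mul _ _ h1 h2, ih, h3]

theorem st_VAN : ST_VAN := by
  intro K _ ψ p j d _ hjd hdiv hlow hsym
  by_contra hp
  obtain ⟨e, rfl⟩ := hdiv
  have he : e ≠ 0 := right_ne_zero_of_mul hp
  have hpi : (1 + X : K[X]) ≠ 0 := by
    intro h
    have := congrArg (fun p => coeff p 1) h
    simp [coeff_one] at this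
  have hpi1 : (1 + X : K[X]).natDegree = 1 := by
    rw [add_comm]
    simpa using natDegree_X_add_C (1 : K)
  have hdeg : ((1 + X : K[X]) ^ (3 * j)).natDegree = 3 * j := by
    rw [natDegree_pow, hpi1, mul_one]
  have hd4 : ((1 + X : K[X]) ^ (3 * j) * e).natDegree ≤ 4 * j := by
    rw [natDegree_le_iff_coeff_eq_zero]
    intro t ht
    rw [hsym t, if_neg (by omega)]
  have hej : e.natDegree ≤ j := by
    rw [natDegree_mul (pow_ne_zero _ hpi) he, hdeg] at hd4
    omega
  have hrefl : (1 + X : K[X]) ^ (3 * j) * e =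
      reflect (4 * j) (((1 + X : K[X]) ^ (3 * j) * e).map ψ) := by
    refine Polynomial.ext fun t => ?_
    rw [coeff_reflect, coeff_map]
    rcases Nat.lt_or_ge (4 * j) t with ht | ht
    · rw [revAt_eq_self_of_lt ht, hsym t, if_neg (by omega), map_zero]
    · rw [revAt_le ht, hsym t, if_pos ht]
  have hmap : ((1 + X : K[X]) ^ (3 * j) * e).map ψ = (1 + X) ^ (3 * j) * e.map ψ := by
    simp
  have hej' : (e.map ψ).natDegree ≤ j := natDegree_map_le.trans hej
  rw [hmap, show 4 * j = 3 * j + j by ring, reflect_mul _ _ hdeg.le hej', van_reflect_pow] at hrefl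
  have hee : e = reflect j (e.map ψ) := mul_left_cancel₀ (pow_ne_zero _ hpi) hrefl
  have hX : (X : K[X]) ^ d ∣ (1 + X : K[X]) ^ (3 * j) * e := by
    rw [X_pow_dvd_iff]
    exact hlow
  have hcop : IsCoprime (X : K[X]) (1 + X) := ⟨-1, 1, by ring⟩
  have hXe : (X : K[X]) ^ d ∣ e := (hcop.pow).dvd_of_dvd_mul_left hX
  rw [X_pow_dvd_iff] at hXe
  apply he
  refine Polynomial.ext fun t => ?_
  rw [coeff_zero]
  rcases Nat.lt_or_ge t d with ht | ht
  · exact hXe t ht
  · rcases Nat.lt_or_ge j t with h2 | h2
    · exact coeff_eq_zero_of_natDegree_lt (lt_of_le_of_lt hej h2)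
    · rw [hee, coeff_reflect, revAt_le h2, coeff_map, hXe (j - t) (by omega), map_zero]

end Pool.Agent.Helper51.GT
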